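import Pool.Agent.Y95.KM.Main
import Pool.Agent.Y95.KM.Prod

/-!
# The cone conjecture for varieties with numerically trivial canonical class, from the factors of
# the Beauville–Bogomolov decomposition

Let `Y` be a smooth projective variety with `K_Y ≡ 0`. By the theorem of Beauville and Bogomolov
there is a finite étale Galois cover `P → Y` with group `G`, where `P` is a product of varieties `X i`
(an abelian variety, hyperkähler manifolds, simply connected Calabi–Yau manifolds). If the cone
conjecture holds for each `X i`, then it holds for `Y`.

The proof: the cone conjecture gives the equality of the cone of nef and effective classes with the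
cone `C` generated by the integral nef classes, and a domain `D` (of Dirichlet type) which is a
rational polyhedral cone. The group `Γ` of `P` on `N^1(P)` has the Siegel property on `C`. The
fixed classes of `G` in a translate `γ D` are, up to `Γ`, those in finitely many such translates, for
the centralizer of `G` in the group of `P`, because the pairs (group `G`, conjugation) fall in finitely
many orbits: this uses the finiteness of `H^1(G, T)` for the divisible group `T` of points of the
abelian variety `Aut⁰(P)`, so it is not a statement on linear groups only.
-/

set_option autoImplicit false

namespace Pool.Agent.Results.MP_e49dc9_ag.BogomolovDecomposition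

open Pool.Agent.Y95.KM

theorem result {ι : Type*} [Fintype ι] {W A : ι → Type*} [∀ i, NormedAddCommGroup (W i)]
    [∀ i, NormedSpace ℝ (W i)] [∀ i, Group (A i)] {B : Type*} [Group B]
    {V C : Type*} [NormedAddCommGroup V] [NormedSpace ℝ V] [Group C]
    -- the factors, their product `P`, and the quotient `Y` of `P` by the finite group `G`
    (X : ∀ i, Num (W i) (A i)) (P : Num (∀ i, W i) B) (Y : Num V C)
    (G : Subgroup B) [Finite G] (q : V →ₗ[ℝ] (∀ i, W i))
    (hX : ∀ i, (X i).Good) (hP : P.Good) (hY : Y.Good)
    (hprod : Num.IsProduct X P) (hker : P.AbelianKernel) (hquot : P.IsQuotient G Y q)
    -- the cone conjecture for the factors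
    (hconj : ∀ i, (X i).ConeConj) :
    -- the cone conjecture for `Y`
    Y.ConeConj :=
  descend hP hker hY hquot (product hX hP hprod hconj)

end Pool.Agent.Results.MP_e49dc9_ag.BogomolovDecomposition
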